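import Pool.Agent.Run7.h495.IIC.Exi

/-!
Critical bond percolation on the square lattice: the volume of the incipient infinite cluster.

Kesten's incipient infinite cluster is the cluster `C` of the origin under a limit `ν` of the
critical laws conditioned on a connection from the origin to distance `N → ∞`, or to a vertex
`w → ∞`. For every such limit, the number `|C ∩ [-n, n]²|` of its vertices in the box satisfies the
law of the iterated logarithm: almost surely its upper limit, divided by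
`n ^ (91/48) (log log n) ^ (5/96)`, is between two universal positive constants. The probability
that it is at least `x n ^ (91/48)` is `exp (- Θ (x ^ (96/5)))`, uniformly in `n` and in `x`, up to
the largest value which is possible.

The upper bounds come from the connection probabilities of finite sets of vertices
(`Pool.Agent.H362P`, starting repository); the lower bounds come from increasing events in disjoint
annuli and from the Harris inequality (`Pool.Agent.Y244.PC`, starting repository). The new files are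
in `Pool.Agent.Run7.h495.IIC`.
-/

set_option autoImplicit false

namespace Pool.Agent.Results.MP_35f495_pr.IncipientClusterLIL

open MeasureTheory Filter Topology

/-- The square lattice: two points of `ℤ²` are adjacent when they differ by one in exactly one
coordinate. -/
def Z2 : SimpleGraph (ℤ × ℤ) where
  Adj u v := |u.1 - v.1| + |u.2 - v.2| = 1
  symm := ⟨fun u v h => by rw [abs_sub_comm v.1, abs_sub_comm v.2]; exact h⟩
  loopless := ⟨fun u h => by simp at h⟩

/-- Critical bond percolation: every edge of the square lattice is open (`true`) with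
probability `1/2`, independently of the other edges. -/
noncomputable def crit : Measure (Z2.edgeSet → Bool) :=
  Measure.infinitePi (fun _ => ProbabilityTheory.bernoulliMeasure true false
    ⟨1/2, by norm_num, by norm_num⟩)

/-- The graph of the open edges. -/
def openGraph (ω : Z2.edgeSet → Bool) : SimpleGraph (ℤ × ℤ) :=
  SimpleGraph.fromEdgeSet {e | ∃ h : e ∈ Z2.edgeSet, ω ⟨e, h⟩ = true}

/-- The sup norm of a vertex. -/
def norm (v : ℤ × ℤ) : ℕ := max v.1.natAbs v.2.natAbs

/-- The origin is connected to a vertex at distance at least `N`. -/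
def toDistance (N : ℕ) : Set (Z2.edgeSet → Bool) :=
  {ω | ∃ v : ℤ × ℤ, N ≤ norm v ∧ (openGraph ω).Reachable (0, 0) v}

/-- The origin is connected to `w`. -/
def toVertex (w : ℤ × ℤ) : Set (Z2.edgeSet → Bool) := {ω | (openGraph ω).Reachable (0, 0) w}

/-- `E` depends on finitely many edges only. -/
def IsLocal (E : Set (Z2.edgeSet → Bool)) : Prop :=
  ∃ S : Finset Z2.edgeSet, ∀ ω ω' : Z2.edgeSet → Bool, (∀ e ∈ S, ω e = ω' e) → (ω ∈ E ↔ ω' ∈ E)

/-- `ν` is an incipient infinite cluster measure: a probability measure which is the limit, on the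
local events, of critical percolation conditioned on connections from the origin to distances
`N_j → ∞` or to vertices `w_j → ∞`. -/
def IsIIC (ν : Measure (Z2.edgeSet → Bool)) : Prop :=
  IsProbabilityMeasure ν ∧ ∃ A : ℕ → Set (Z2.edgeSet → Bool),
    (∀ j : ℕ, (∃ N : ℕ, j ≤ N ∧ A j = toDistance N) ∨
      (∃ w : ℤ × ℤ, j ≤ norm w ∧ A j = toVertex w)) ∧
    ∀ E : Set (Z2.edgeSet → Bool), IsLocal E →
      Tendsto (fun j => crit.real (E ∩ A j) / crit.real (A j)) atTop (𝓝 (ν.real E))

/-- The number of vertices of the box `[-n, n]²` in the open cluster of the origin. -/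
noncomputable def vol (n : ℕ) (ω : Z2.edgeSet → Bool) : ℕ :=
  Set.ncard {v : ℤ × ℤ | norm v ≤ n ∧ (openGraph ω).Reachable (0, 0) v}

theorem vol_iff (n : ℕ) (y : ℝ) (ω : Z2.edgeSet → Bool) :
    y ≤ (vol n ω : ℝ) ↔ Run7.h495.IIC.Vn n y (H974.opn ω) := by
  have hfin : {v : ℤ × ℤ | norm v ≤ n ∧ (openGraph ω).Reachable (0, 0) v}.Finite := by
    refine (Pool.Agent.H160R2.CV.bx n).finite_toSet.subset ?_
    rintro v ⟨hv, -⟩
    unfold norm at hv
    rw [Finset.mem_coe, Pool.Agent.H160R2.CV.TwoAux.mem_bx']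
    omega
  constructor
  · intro h
    refine ⟨hfin.toFinset, ?_, ?_, ?_⟩
    · intro v hv
      rw [Set.Finite.mem_toFinset] at hv
      have h1 := hv.1
      unfold norm at h1
      rw [Pool.Agent.H160R2.CV.TwoAux.mem_bx']
      omega
    · rw [← Set.ncard_eq_toFinset_card _ hfin]
      exact h
    · intro v hv
      rw [Set.Finite.mem_toFinset] at hv
      exact (H974.open_reach ω _ _).mp hv.2
  · rintro ⟨T, h1, h2, h3⟩
    refine h2.trans ?_
    have h4 : (↑T : Set (ℤ × ℤ)) ⊆
        {v : ℤ × ℤ | norm v ≤ n ∧ (openGraph ω).Reachable (0, 0) v} := by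
      intro v hv
      refine ⟨?_, (H974.open_reach ω _ _).mpr (h3 v hv)⟩
      have h5 := h1 hv
      rw [Pool.Agent.H160R2.CV.TwoAux.mem_bx'] at h5
      unfold norm
      omega
    have h5 := Set.ncard_le_ncard h4 hfin
    rw [Set.ncard_coe_finset] at h5
    exact_mod_cast h5

theorem toDistance_eq (N : ℕ) :
    toDistance N = {ω | Run7.h495.IIC.FarS N (H974.opn ω)} := by
  ext ω
  constructor
  · rintro ⟨v, h1, h2⟩
    exact ⟨v, h1, (H974.open_reach ω _ _).mp h2⟩
  · rintro ⟨v, h1, h2⟩
    exact ⟨v, h1, (H974.open_reach ω _ _).mpr h2⟩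

theorem toVertex_eq (w : ℤ × ℤ) :
    toVertex w = {ω | H974.Reach (H974.opn ω) (0, 0) w} := by
  ext ω
  exact H974.open_reach ω _ _

theorem iic_iff (ν : Measure (Z2.edgeSet → Bool)) : IsIIC ν ↔ Run7.h495.IIC.IsIIC ν := by
  constructor
  · rintro ⟨h1, A, h2, h3⟩
    refine ⟨h1, A, fun j => ?_, fun E hE => h3 E hE⟩
    rcases h2 j with ⟨N, h4, h5⟩ | ⟨w, h4, h5⟩
    · exact Or.inl ⟨N, h4, by rw [h5]; exact toDistance_eq N⟩
    · exact Or.inr ⟨w, h4, by rw [h5]; exact toVertex_eq w⟩
  · rintro ⟨h1, A, h2, h3⟩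
    refine ⟨h1, A, fun j => ?_, fun E hE => h3 E hE⟩
    rcases h2 j with ⟨N, h4, h5⟩ | ⟨w, h4, h5⟩
    · exact Or.inl ⟨N, h4, by rw [h5]; exact (toDistance_eq N).symm⟩
    · exact Or.inr ⟨w, h4, by rw [h5]; exact (toVertex_eq w).symm⟩

/-- **The volume of the incipient infinite cluster of the square lattice.** Incipient infinite
cluster measures exist, and for every such measure: (1) the law of the iterated logarithm for the
volume in the boxes `[-n, n]²`; (2) the upper tail of the volume, both bounds. -/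
theorem result : (∃ ν, IsIIC ν) ∧ ∃ c C : ℝ, 0 < c ∧ 0 < C ∧ ∀ ν, IsIIC ν →
    (∀ᵐ ω ∂ν,
      (∀ᶠ n : ℕ in atTop, (vol n ω : ℝ) ≤
        C * ((n : ℝ) ^ (91 / 48 : ℝ) * Real.log (Real.log n) ^ (5 / 96 : ℝ))) ∧
      (∃ᶠ n : ℕ in atTop,
        c * ((n : ℝ) ^ (91 / 48 : ℝ) * Real.log (Real.log n) ^ (5 / 96 : ℝ)) ≤ (vol n ω : ℝ))) ∧
    (∀ n : ℕ, 1 ≤ n → ∀ x : ℝ, 1 ≤ x →
      ν.real {ω | x * (n : ℝ) ^ (91 / 48 : ℝ) ≤ (vol n ω : ℝ)} ≤
        C * Real.exp (-(c * x ^ (96 / 5 : ℝ))) ∧
      (x * (n : ℝ) ^ (91 / 48 : ℝ) ≤ (2 * (n : ℝ) + 1) ^ 2 →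
        Real.exp (-(C * x ^ (96 / 5 : ℝ))) ≤
          ν.real {ω | x * (n : ℝ) ^ (91 / 48 : ℝ) ≤ (vol n ω : ℝ)})) := by
  have hAr : Pool.Agent.H389R2.CD.ArS := Pool.Agent.H160R2.SA.arSharp
  refine ⟨?_, ?_⟩
  · obtain ⟨ν, hν⟩ := Run7.h495.IIC.exists_iic
    exact ⟨ν, (iic_iff ν).mpr hν⟩
  obtain ⟨C1, hC1, h1⟩ := Run7.h495.IIC.lil_upper hAr
  obtain ⟨c2, hc2, h2⟩ := Run7.h495.IIC.lil_lower hAr
  obtain ⟨c3, C3, hc3, hC3, h3⟩ := Run7.h495.IIC.iic_upper hAr
  obtain ⟨C4, hC4, h4⟩ := Run7.h495.IIC.iic_lower hAr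
  set c := min c2 c3 with hc
  set C := max C1 (max C3 C4) with hC
  have e2 : c ≤ c2 := min_le_left _ _
  have e3 : c ≤ c3 := min_le_right _ _
  have E1 : C1 ≤ C := le_max_left _ _
  have E3 : C3 ≤ C := (le_max_left _ _).trans (le_max_right _ _)
  have E4 : C4 ≤ C := (le_max_right _ _).trans (le_max_right _ _)
  refine ⟨c, C, lt_min hc2 hc3, lt_of_lt_of_le hC1 E1, fun ν hν => ⟨?_, ?_⟩⟩
  · have hg : Tendsto (fun n : ℕ => Real.log (Real.log n)) atTop atTop :=
      Real.tendsto_log_atTop.comp (Real.tendsto_log_atTop.comp tendsto_natCast_atTop_atTop)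
    filter_upwards [h1 ν ((iic_iff ν).mp hν), h2 ν ((iic_iff ν).mp hν)] with ω k1 k2
    constructor
    · filter_upwards [k1, hg.eventually_ge_atTop 0] with n k3 k4
      have k5 : (vol n ω : ℝ) < C1 * Run7.h495.IIC.gn n := by
        by_contra h
        push Not at h
        exact k3 ((vol_iff n _ ω).mp h)
      refine k5.le.trans (mul_le_mul_of_nonneg_right E1 ?_)
      exact mul_nonneg (by positivity) (Real.rpow_nonneg k4 _)
    · refine (k2.and_eventually (hg.eventually_ge_atTop 0)).mono ?_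
      rintro n ⟨k3, k4⟩
      have k5 := (vol_iff n _ ω).mpr k3
      refine le_trans (mul_le_mul_of_nonneg_right e2 ?_) k5
      exact mul_nonneg (by positivity) (Real.rpow_nonneg k4 _)
  · intro n hn x hx
    have e : {ω : Z2.edgeSet → Bool | x * (n : ℝ) ^ (91 / 48 : ℝ) ≤ (vol n ω : ℝ)} =
        {ω | Run7.h495.IIC.Vn n (x * (n : ℝ) ^ (91 / 48 : ℝ)) (H974.opn ω)} := by
      ext ω
      exact vol_iff n _ ω
    rw [e]
    have hx0 : 0 ≤ x ^ (96 / 5 : ℝ) := by positivity
    constructor
    · refine (h3 ν ((iic_iff ν).mp hν) n hn x hx).trans ?_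
      apply mul_le_mul E3 _ (Real.exp_pos _).le (hC3.le.trans E3)
      apply Real.exp_le_exp.mpr
      have := mul_le_mul_of_nonneg_right e3 hx0
      linarith
    · intro hxn
      refine le_trans ?_ (h4 ν ((iic_iff ν).mp hν) n hn x hx hxn)
      apply Real.exp_le_exp.mpr
      have := mul_le_mul_of_nonneg_right E4 hx0
      linarith

end Pool.Agent.Results.MP_35f495_pr.IncipientClusterLIL
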